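import Pool.Agent.BEW.StmtsD
import Pool.Agent.Helper11_BEW.BOO

/-!
# Squad BEW, row FRW: comparison with the free evolution on a window
-/

set_option autoImplicit false

namespace Pool.Agent.BEW.H76

open Set Filter Topology MeasureTheory
open scoped InnerProductSpace ENNReal
open Pool.Agent.BE01 Pool.Agent.BEL Pool.Agent.BEG Pool.Agent.BEH Pool.Agent.BER

noncomputable section

/-- the constant -/
def C0 (al B m0 : ℝ) : ℝ :=
  Real.sqrt m0 * (14 * B) ^ al * (14 * B) + (al + 1) * (14 * B) ^ al * (8 + 14 * B ^ 2 * m0)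

variable {X : Type} [MeasurableSpace X]

theorem C0_pos {al B m0 : ℝ} (hal : 0 < al) (hB : 0 < B) (hm0 : 0 < m0) : 0 < C0 al B m0 := by
  have h1 : 0 < (14 * B) ^ al := Real.rpow_pos_of_pos (by positivity) _
  have h2 : 0 < Real.sqrt m0 := Real.sqrt_pos.mpr hm0
  unfold C0
  positivity

/-- The estimates at one time. -/
theorem frw_est (bsl : BslStmt) {al B m0 R : ℝ} (hal : 0 < al) (hB : 0 < B)
    (hm0 : 0 < m0) (hR : 0 < R) (hBR : 14 * B * R ≤ 1)
    {μ : Measure X} {b : ℕ → X → ℝ} {om : ℕ → ℝ} {M : ℕ} {p v : ℕ → ℝ → ℝ} {t : ℝ}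
    (hO : Ons μ b B m0) (hF : Frq om) (hM : 1 ≤ M) (hG : Gal μ b om M al p v)
    (h1 : R2 p v t ≤ 4 * R ^ 2) (h3 : S2 om M v t ≤ (4 * R) ^ 2)
    (hvel : ∀ x, |vel b (Finset.range M) v t x| ≤ 14 * B * R) (S : Finset ℕ) :
    ∑ k ∈ S, (∫ x, gl 1 al 1 (vel b (Finset.range M) v t x) * b k x ∂μ) ^ 2 ≤
      (C0 al B m0 * R ^ (al + 1)) ^ 2 ∧
    ∑ k ∈ S, (∫ x, ql 1 al 1 (vel b (Finset.range M) v t x) *
      vel b (Finset.range M) (dd v) t x * b k x ∂μ) ^ 2 ≤
      (C0 al B m0 * R ^ (al + 1)) ^ 2 := by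
  haveI := hO.fin
  have hp0 : |p 0 t| ≤ 2 * R := by
    apply abs_le_of_sq_le_sq _ (by linarith)
    unfold R2 at h1
    nlinarith [sq_nonneg (v 0 t)]
  have hsd : ∑ k ∈ Finset.Ico 1 M, dd v k t ^ 2 ≤ (4 * R) ^ 2 := by
    refine le_trans ?_ h3
    unfold S2
    exact Finset.sum_le_sum fun k _ => by nlinarith [sq_nonneg (om k * v k t)]
  have hBR0 : 0 ≤ 14 * B * R := by positivity
  have hgl : ∀ x, |gl 1 al 1 (vel b (Finset.range M) v t x)| ≤ (14 * B * R) ^ al * (14 * B * R) := by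
    intro x
    refine (Pool.Agent.BEL.H29.gl_abs one_pos hal _ zero_le_one).trans ?_
    unfold gf
    rw [one_mul, abs_mul, abs_of_nonneg (Real.rpow_nonneg (abs_nonneg _) _)]
    exact mul_le_mul (Real.rpow_le_rpow (abs_nonneg _) (hvel x) hal.le) (hvel x) (abs_nonneg _)
      (Real.rpow_nonneg hBR0 _)
  have hql : ∀ x, |ql 1 al 1 (vel b (Finset.range M) v t x)| ≤ (al + 1) * (14 * B * R) ^ al := by
    intro x
    rw [abs_of_nonneg (Pool.Agent.BEL.H29.ql_nonneg one_pos hal zero_le_one _)]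
    unfold ql mm
    rw [one_mul]
    apply mul_le_mul_of_nonneg_left _ (by linarith)
    exact Real.rpow_le_rpow (le_min (abs_nonneg _) zero_le_one)
      ((min_le_left _ _).trans (hvel x)) hal.le
  have hmulr : (14 * B * R) ^ al = (14 * B) ^ al * R ^ al :=
    Real.mul_rpow (by positivity) hR.le
  have hq1 : (14 * B * R) ^ al ≤ 1 := Real.rpow_le_one hBR0 hBR hal.le
  have hq0 : 0 ≤ (14 * B * R) ^ al := Real.rpow_nonneg hBR0 _
  obtain ⟨Z, hZ⟩ : ∃ Z, Z = (14 * B * R) ^ al := ⟨_, rfl⟩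
  have hrw : C0 al B m0 * R ^ (al + 1) =
      Real.sqrt m0 * Z * (14 * B) * R + (al + 1) * Z * (8 + 14 * B ^ 2 * m0) * R := by
    rw [hZ, hmulr, Real.rpow_add hR, Real.rpow_one]
    unfold C0
    ring
  rw [hrw]
  rw [← hZ] at hgl hql hq1 hq0
  have hs0 : 0 ≤ Real.sqrt m0 := Real.sqrt_nonneg _
  have hA : 0 ≤ Real.sqrt m0 * Z * (14 * B) * R := by positivity
  have hA' : 0 ≤ (al + 1) * Z * (8 + 14 * B ^ 2 * m0) * R := by positivity
  have hvm : Measurable (vel b (Finset.range M) v t) := Pool.Agent.BEW.H11.vel_meas hO _ _ _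
  have hdm : Measurable (vel b (Finset.range M) (dd v) t) := Pool.Agent.BEW.H11.vel_meas hO _ _ _
  have hglc : Continuous (gl 1 al 1) := continuous_iff_continuousAt.mpr fun s =>
    (Pool.Agent.BEL.H29.gl_deriv hal 1 s).continuousAt
  have hqlc : Continuous (ql 1 al 1) := Pool.Agent.BEL.H29.ql_cont hal 1
  constructor
  · have hb := (bsl X μ b B m0 hO).1 S (fun x => gl 1 al 1 (vel b (Finset.range M) v t x))
      (hglc.measurable.comp hvm) ⟨_, hgl⟩
    refine hb.trans ?_
    have h4 := norm_integral_le_of_norm_le_const (μ := μ)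
      (f := fun x => gl 1 al 1 (vel b (Finset.range M) v t x) ^ 2)
      (C := (Z * (14 * B * R)) ^ 2) (Eventually.of_forall fun x => by
        rw [Real.norm_eq_abs, abs_pow]
        exact pow_le_pow_left₀ (abs_nonneg _) (hgl x) 2)
    have h5 : ∫ x, gl 1 al 1 (vel b (Finset.range M) v t x) ^ 2 ∂μ ≤
        (Z * (14 * B * R)) ^ 2 * m0 :=
      ((Real.le_norm_self _).trans h4).trans (mul_le_mul_of_nonneg_left hO.mass (by positivity))
    refine h5.trans ?_
    have h6 : (Z * (14 * B * R)) ^ 2 * m0 = (Real.sqrt m0 * Z * (14 * B) * R) ^ 2 := by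
      have h7 := Real.sq_sqrt hm0.le
      calc (Z * (14 * B * R)) ^ 2 * m0 = (Z * (14 * B * R)) ^ 2 * Real.sqrt m0 ^ 2 := by rw [h7]
        _ = _ := by ring
    rw [h6]
    exact pow_le_pow_left₀ hA (by linarith) 2
  · have hG0 : |∫ x, gl 1 al 1 (vel b (Finset.range M) v t x) * b 0 x ∂μ| ≤
        Z * (14 * B * R) * B * m0 := by
      have h4 := norm_integral_le_of_norm_le_const (μ := μ)
        (f := fun x => gl 1 al 1 (vel b (Finset.range M) v t x) * b 0 x)
        (C := Z * (14 * B * R) * B) (Eventually.of_forall fun x => by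
          rw [Real.norm_eq_abs, abs_mul]
          exact mul_le_mul (hgl x) (hO.bdd 0 x) (abs_nonneg _) (by positivity))
      rw [Real.norm_eq_abs] at h4
      exact h4.trans (mul_le_mul_of_nonneg_left hO.mass (by positivity))
    have hd0 : |dd v 0 t| ≤ (4 + 14 * B ^ 2 * m0) * R := by
      have h8 : dd v 0 t = -(om 0 * p 0 t) -
          ∫ x, gl 1 al 1 (vel b (Finset.range M) v t x) * b 0 x ∂μ :=
        (hG.dv 0 (by omega) t).deriv
      rw [h8]
      have h9 : |om 0 * p 0 t| ≤ 2 * (2 * R) := by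
        rw [abs_mul]
        have h10 : 0 ≤ om 0 := by
          have := hF.lo 0
          rw [Nat.cast_zero] at this
          linarith
        rw [abs_of_nonneg h10]
        exact mul_le_mul hF.o0 hp0 (abs_nonneg _) (by norm_num)
      have h11 : Z * (14 * B * R) * B * m0 ≤ 1 * (14 * B * R) * B * m0 := by
        have h12 : Z * (14 * B * R) ≤ 1 * (14 * B * R) := mul_le_mul_of_nonneg_right hq1 hBR0
        exact mul_le_mul_of_nonneg_right (mul_le_mul_of_nonneg_right h12 hB.le) hm0.le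
      have h13 : |-(om 0 * p 0 t) - ∫ x, gl 1 al 1 (vel b (Finset.range M) v t x) * b 0 x ∂μ| ≤
          |om 0 * p 0 t| + |∫ x, gl 1 al 1 (vel b (Finset.range M) v t x) * b 0 x ∂μ| := by
        refine (abs_sub _ _).trans ?_
        rw [abs_neg]
      calc _ ≤ _ := h13
        _ ≤ 2 * (2 * R) + 1 * (14 * B * R) * B * m0 := by linarith
        _ = (4 + 14 * B ^ 2 * m0) * R := by ring
    have hd2 : dd v 0 t ^ 2 ≤ ((4 + 14 * B ^ 2 * m0) * R) ^ 2 := by
      rw [← sq_abs]
      exact pow_le_pow_left₀ (abs_nonneg _) hd0 2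
    have hI1 : ∫ x, vel b (Finset.range M) (dd v) t x ^ 2 ∂μ ≤
        ((4 + 14 * B ^ 2 * m0) * R) ^ 2 + (4 * R) ^ 2 := by
      have h8 := (bsl X μ b B m0 hO).2 (Finset.range M) (fun k => dd v k t)
      have h9 : ∫ x, vel b (Finset.range M) (dd v) t x ^ 2 ∂μ =
          ∑ k ∈ Finset.range M, dd v k t ^ 2 := h8
      rw [h9, Finset.range_eq_Ico, Finset.sum_eq_sum_Ico_succ_bot hM]
      exact add_le_add hd2 hsd
    have hub : ∀ x, |ql 1 al 1 (vel b (Finset.range M) v t x) *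
        vel b (Finset.range M) (dd v) t x| ≤
        ((al + 1) * Z) * ∑ k ∈ Finset.range M, |dd v k t| * B := by
      intro x
      rw [abs_mul]
      exact mul_le_mul (hql x) (Pool.Agent.BEW.H11.vel_bdd hO _ _ _ x) (abs_nonneg _)
        (by positivity)
    have hb := (bsl X μ b B m0 hO).1 S (fun x => ql 1 al 1 (vel b (Finset.range M) v t x) *
      vel b (Finset.range M) (dd v) t x) ((hqlc.measurable.comp hvm).mul hdm) ⟨_, hub⟩
    refine hb.trans ?_
    have hdi : Integrable (fun x => vel b (Finset.range M) (dd v) t x ^ 2) μ :=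
      Pool.Agent.BEW.H11.vel_sq_int hO (Finset.range M) (dd v) t
    have h14 : ‖∫ x, (ql 1 al 1 (vel b (Finset.range M) v t x) *
        vel b (Finset.range M) (dd v) t x) ^ 2 ∂μ‖ ≤
        ∫ x, ((al + 1) * Z) ^ 2 * vel b (Finset.range M) (dd v) t x ^ 2 ∂μ := by
      apply norm_integral_le_of_norm_le (hdi.const_mul _)
      refine Eventually.of_forall fun x => ?_
      rw [Real.norm_eq_abs, abs_of_nonneg (sq_nonneg _), mul_pow]
      refine mul_le_mul_of_nonneg_right ?_ (sq_nonneg _)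
      rw [← sq_abs]
      exact pow_le_pow_left₀ (abs_nonneg _) (hql x) 2
    rw [integral_const_mul] at h14
    have h15 : ∫ x, (ql 1 al 1 (vel b (Finset.range M) v t x) *
        vel b (Finset.range M) (dd v) t x) ^ 2 ∂μ ≤
        ((al + 1) * Z) ^ 2 * (((4 + 14 * B ^ 2 * m0) * R) ^ 2 + (4 * R) ^ 2) :=
      ((Real.le_norm_self _).trans h14).trans (mul_le_mul_of_nonneg_left hI1 (sq_nonneg _))
    refine h15.trans ?_
    have h16 : ((4 + 14 * B ^ 2 * m0) * R) ^ 2 + (4 * R) ^ 2 ≤ ((8 + 14 * B ^ 2 * m0) * R) ^ 2 := by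
      have h17 : 0 ≤ (4 + 14 * B ^ 2 * m0) * R * (4 * R) := by positivity
      nlinarith
    have h18 : ((al + 1) * Z) ^ 2 * (((4 + 14 * B ^ 2 * m0) * R) ^ 2 + (4 * R) ^ 2) ≤
        ((al + 1) * Z * (8 + 14 * B ^ 2 * m0) * R) ^ 2 := by
      calc _ ≤ ((al + 1) * Z) ^ 2 * ((8 + 14 * B ^ 2 * m0) * R) ^ 2 :=
            mul_le_mul_of_nonneg_left h16 (sq_nonneg _)
        _ = _ := by ring
    refine h18.trans ?_
    exact pow_le_pow_left₀ hA' (by linarith) 2

/-- Row FRW. -/
theorem frw (bsl : BslStmt) (der : DerStmt) (rot : RotStmt) : FrwStmt := by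
  intro al B m0 hal hB hm0
  have hC0 := C0_pos hal hB hm0
  refine ⟨3 * C0 al B m0, by positivity, ?_⟩
  intro X _ μ b om M p v η T t0 R hO hF hη hη1 hT hW s hs
  have hM := hW.one
  have hR := hW.Rp
  have hG := hW.gal
  have hRa : 0 < R ^ (al + 1) := Real.rpow_pos_of_pos hR _
  obtain ⟨g, hg⟩ : ∃ g, g = C0 al B m0 * R ^ (al + 1) := ⟨_, rfl⟩
  have hg0 : 0 ≤ g := by rw [hg]; positivity
  have hest : ∀ s ∈ Icc 0 T, ∀ S : Finset ℕ, _ := fun s hs S =>
    frw_est bsl hal hB hm0 hR hW.w4 hO hF hM hG (hW.w0 s hs).2 (hW.w2 s hs) (hW.w3 s hs) S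
  rw [← hg] at hest
  have hCT : 3 * C0 al B m0 * T * R ^ (al + 1) = 3 * (g * T) := by
    rw [hg]
    ring
  rw [hCT]
  have hsT : g * s ≤ g * T := mul_le_mul_of_nonneg_left hs.2 hg0
  have hgs0 : 0 ≤ g * s := mul_nonneg hg0 hs.1
  have hgT0 : 0 ≤ g * T := hgs0.trans hsT
  have hgT : g ≤ g * T := by nlinarith
  -- mode zero
  have r0 := rot {0} om p v (fun k t => ∫ x, gl 1 al 1 (vel b (Finset.range M) v t x) * b k x ∂μ)
    t0 T g hg0
    (fun k hk t => hG.dp k (by rw [Finset.mem_singleton] at hk; omega) t)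
    (fun k hk t => hG.dv k (by rw [Finset.mem_singleton] at hk; omega) t)
    (fun s hs => (hest s hs {0}).1) s hs
  rw [Finset.sum_singleton] at r0
  have r01 : |v 0 (t0 + s) - (v 0 t0 * Real.cos (om 0 * s) - p 0 t0 * Real.sin (om 0 * s))| ≤
      g * s := by
    apply abs_le_of_sq_le_sq _ hgs0
    linarith [sq_nonneg (p 0 (t0 + s) - (p 0 t0 * Real.cos (om 0 * s) +
      v 0 t0 * Real.sin (om 0 * s)))]
  have r02 : |p 0 (t0 + s) - (p 0 t0 * Real.cos (om 0 * s) + v 0 t0 * Real.sin (om 0 * s))| ≤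
      g * s := by
    apply abs_le_of_sq_le_sq _ hgs0
    linarith [sq_nonneg (v 0 (t0 + s) - (v 0 t0 * Real.cos (om 0 * s) -
      p 0 t0 * Real.sin (om 0 * s)))]
  have hG0 : |∫ x, gl 1 al 1 (vel b (Finset.range M) v (t0 + s) x) * b 0 x ∂μ| ≤ g := by
    have h1 := (hest s hs {0}).1
    rw [Finset.sum_singleton] at h1
    exact abs_le_of_sq_le_sq h1 hg0
  have hsub : ∀ k ∈ Finset.Ico 1 M, k < M := fun k hk => (Finset.mem_Ico.mp hk).2
  have r1 := rot (Finset.Ico 1 M) om p v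
    (fun k t => ∫ x, gl 1 al 1 (vel b (Finset.range M) v t x) * b k x ∂μ) t0 T g hg0
    (fun k hk t => hG.dp k (hsub k hk) t)
    (fun k hk t => hG.dv k (hsub k hk) t)
    (fun s hs => (hest s hs (Finset.Ico 1 M)).1) s hs
  obtain ⟨-, -, hdd, -⟩ := der X μ b om M al B m0 p v hal hO hM hG
  have r2 := rot (Finset.Ico 1 M) om (fun k t => om k * v k t) (dd v)
    (fun k t => ∫ x, ql 1 al 1 (vel b (Finset.range M) v t x) *
      vel b (Finset.range M) (dd v) t x * b k x ∂μ) t0 T g hg0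
    (fun k hk t => by
      have h1 := (hG.dv k (hsub k hk) t).differentiableAt.hasDerivAt
      exact h1.const_mul (om k))
    (fun k hk t => by
      have h1 := hdd k (hsub k hk) t
      have h2 : om k * (om k * v k t) = om k ^ 2 * v k t := by ring
      rw [h2]
      exact h1)
    (fun s hs => (hest s hs (Finset.Ico 1 M)).2) s hs
  have hsq : (g * s) ^ 2 ≤ (3 * (g * T)) ^ 2 := pow_le_pow_left₀ hgs0 (by linarith) 2
  refine ⟨by linarith, ?_, ?_, ?_⟩
  · have h8 : dd v 0 (t0 + s) = -(om 0 * p 0 (t0 + s)) -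
        ∫ x, gl 1 al 1 (vel b (Finset.range M) v (t0 + s) x) * b 0 x ∂μ :=
      (hG.dv 0 (by omega) (t0 + s)).deriv
    have h9 : dd v 0 (t0 + s) + om 0 * (p 0 t0 * Real.cos (om 0 * s) +
        v 0 t0 * Real.sin (om 0 * s)) =
        -(om 0 * (p 0 (t0 + s) - (p 0 t0 * Real.cos (om 0 * s) + v 0 t0 * Real.sin (om 0 * s)))) -
          ∫ x, gl 1 al 1 (vel b (Finset.range M) v (t0 + s) x) * b 0 x ∂μ := by
      rw [h8]
      ring
    rw [h9]
    have h10 : 0 ≤ om 0 := by
      have := hF.lo 0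
      rw [Nat.cast_zero] at this
      linarith
    have h11 : |om 0 * (p 0 (t0 + s) - (p 0 t0 * Real.cos (om 0 * s) +
        v 0 t0 * Real.sin (om 0 * s)))| ≤ 2 * (g * s) := by
      rw [abs_mul, abs_of_nonneg h10]
      exact mul_le_mul hF.o0 r02 (abs_nonneg _) (by norm_num)
    refine (abs_sub _ _).trans ?_
    rw [abs_neg]
    linarith
  · have h8 := (bsl X μ b B m0 hO).2 (Finset.Ico 1 M) (fun k => v k (t0 + s) -
      (v k t0 * Real.cos (om k * s) - p k t0 * Real.sin (om k * s)))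
    have h9 : ∀ x, vel b (Finset.Ico 1 M) v (t0 + s) x -
        fre b om (Finset.Ico 1 M) (fun k => p k t0) (fun k => v k t0) s x =
        ∑ k ∈ Finset.Ico 1 M, (v k (t0 + s) -
          (v k t0 * Real.cos (om k * s) - p k t0 * Real.sin (om k * s))) * b k x := by
      intro x
      unfold vel fre
      rw [← Finset.sum_sub_distrib]
      refine Finset.sum_congr rfl fun k _ => ?_
      ring
    simp only [h9]
    rw [h8]
    refine le_trans ?_ hsq
    refine le_trans (Finset.sum_le_sum fun k _ => ?_) r1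
    linarith [sq_nonneg (p k (t0 + s) - (p k t0 * Real.cos (om k * s) +
      v k t0 * Real.sin (om k * s)))]
  · have h8 := (bsl X μ b B m0 hO).2 (Finset.Ico 1 M) (fun k => dd v k (t0 + s) -
      (dd v k t0 * Real.cos (om k * s) - om k * v k t0 * Real.sin (om k * s)))
    have h9 : ∀ x, vel b (Finset.Ico 1 M) (dd v) (t0 + s) x -
        fre b om (Finset.Ico 1 M) (fun k => om k * v k t0) (fun k => dd v k t0) s x =
        ∑ k ∈ Finset.Ico 1 M, (dd v k (t0 + s) -
          (dd v k t0 * Real.cos (om k * s) - om k * v k t0 * Real.sin (om k * s))) * b k x := by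
      intro x
      unfold vel fre
      rw [← Finset.sum_sub_distrib]
      refine Finset.sum_congr rfl fun k _ => ?_
      ring
    simp only [h9]
    rw [h8]
    refine le_trans ?_ hsq
    refine le_trans (Finset.sum_le_sum fun k _ => ?_) r2
    linarith [sq_nonneg (om k * v k (t0 + s) - (om k * v k t0 * Real.cos (om k * s) +
      dd v k t0 * Real.sin (om k * s)))]

end

end Pool.Agent.BEW.H76
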